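import Pool.Agent.Lib.helper20.WqoTune

namespace Pool.Agent.Results.MP_d97c10_lc.FiniteModel

open Pool.Agent.Lib.helper20.WqoTune

universe u v

/-- Unimodal formulas. -/
inductive Fm : Type
  | var (p : ℕ) : Fm
  | bot : Fm
  | imp (a b : Fm) : Fm
  | dia (a : Fm) : Fm

/-- Kripke truth in the frame `(W, R)` under the valuation `V`. -/
def Holds {W : Type v} (R : W → W → Prop) (V : ℕ → Set W) : Fm → W → Prop
  | .var p, w => w ∈ V p
  | .bot, _ => False
  | .imp a b, w => Holds R V a w → Holds R V b w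
  | .dia a, w => ∃ x, R w x ∧ Holds R V a x

/-- The logic of the frame `(W, R)`: the formulas valid in it. -/
def Log {W : Type v} (R : W → W → Prop) : Set Fm := {φ | ∀ V w, Holds R V φ w}

/-- The finite model property: each formula outside `L` is refuted in a finite frame that
validates `L`. -/
def FMP (L : Set Fm) : Prop :=
  ∀ φ, φ ∉ L → ∃ (G : Type) (_ : Finite G) (_ : Nonempty G) (S : G → G → Prop),
    L ⊆ Log S ∧ φ ∉ Log S

def bound : Fm → ℕ
  | .var p => p + 1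
  | .bot => 0
  | .imp a b => max (bound a) (bound b)
  | .dia a => bound a

lemma fmp_of {W : Type v} {R : W → W → Prop} (h : Tun R) : FMP (Log R) := by
  intro φ hφ
  obtain ⟨V, w, hw⟩ : ∃ V w, ¬ Holds R V φ w := by
    by_contra hh
    push Not at hh
    exact hφ hh
  obtain ⟨δ, _, d, h1, h2⟩ := h (Fin (bound φ) → Prop) (fun x i => x ∈ V i)
  let e : W → Set.range d := fun x => ⟨d x, x, rfl⟩
  have he : ∀ x y, e x = e y ↔ d x = d y := fun x y => Subtype.ext_iff
  have hs : ∀ j, ∃ x, e x = j := fun ⟨_, x, hx⟩ => ⟨x, Subtype.ext hx⟩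
  let S : Set.range d → Set.range d → Prop := fun i j => ∃ x y, e x = i ∧ e y = j ∧ R x y
  have key : ∀ (U : ℕ → Set W) (U' : ℕ → Set (Set.range d)) (ψ : Fm),
      (∀ p < bound ψ, ∀ x, x ∈ U p ↔ e x ∈ U' p) →
      ∀ x, Holds R U ψ x ↔ Holds S U' ψ (e x) := by
    intro U U' ψ
    induction ψ with
    | var p => exact fun hU x => hU p (Nat.lt_succ_self p) x
    | bot => exact fun _ _ => Iff.rfl
    | imp a b iha ihb =>
      intro hU x
      exact imp_congr (iha (fun p hp => hU p (lt_of_lt_of_le hp (le_max_left _ _))) x)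
        (ihb (fun p hp => hU p (lt_of_lt_of_le hp (le_max_right _ _))) x)
    | dia a ih =>
      intro hU x
      constructor
      · rintro ⟨y, r, hy⟩
        exact ⟨e y, ⟨x, y, rfl, rfl, r⟩, (ih hU y).1 hy⟩
      · rintro ⟨j, ⟨x', y, e1, rfl, r⟩, hy⟩
        obtain ⟨y', e2, r'⟩ := h2 x' x y ((he _ _).1 e1) r
        refine ⟨y', r', (ih hU y').2 ?_⟩
        rw [(he _ _).2 e2]
        exact hy
  refine ⟨Set.range d, inferInstance, ⟨e w⟩, S, fun ψ hψ U' j => ?_, fun hv => hw ?_⟩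
  · obtain ⟨x, rfl⟩ := hs j
    exact (key (fun p => e ⁻¹' U' p) U' ψ (fun _ _ _ => Iff.rfl) x).1 (hψ _ x)
  · refine (key V (fun p => e '' V p) φ (fun p hp x => ⟨fun hx => ⟨x, hx, rfl⟩, ?_⟩) w).2 (hv _ _)
    rintro ⟨y, hy, e1⟩
    have : (y ∈ V p) = (x ∈ V p) := congrFun (h1 y x ((he _ _).1 e1)) ⟨p, hp⟩
    exact this ▸ hy

theorem result (k : ℕ) (α : Fin k → Ordinal.{u}) :
    FMP (Log (fun x y : (i : Fin k) → Set.Iio (α i) => ∀ i, x i ≤ y i)) ∧
    FMP (Log (fun x y : (i : Fin k) → Set.Iio (α i) => ∀ i, x i < y i)) :=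
  ⟨fmp_of (tun_le α), fmp_of (tun_lt α)⟩

end Pool.Agent.Results.MP_d97c10_lc.FiniteModel
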