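import Pool.Agent.Lib.helper20.WqoTune

namespace Pool.Agent.Results.MP_d97c10_lc.LocallyFinite

open Pool.Agent.Lib.helper20.WqoTune

universe u v

/-- `Gen R S X`: the set `X` lies in the subalgebra of the modal algebra of the frame `(W, R)`
generated by the family `S`. -/
inductive Gen {W : Type v} (R : W → W → Prop) (S : Set (Set W)) : Set W → Prop
  | base {X : Set W} : X ∈ S → Gen R S X
  | empty : Gen R S ∅
  | compl {X : Set W} : Gen R S X → Gen R S Xᶜ
  | union {X Y : Set W} : Gen R S X → Gen R S Y → Gen R S (X ∪ Y)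
  | dia {X : Set W} : Gen R S X → Gen R S {w | ∃ v ∈ X, R w v}

/-- The modal algebra of `(W, R)` is locally finite. -/
def LocFin {W : Type v} (R : W → W → Prop) : Prop :=
  ∀ S : Set (Set W), S.Finite → {X | Gen R S X}.Finite

lemma locFin_of {W : Type v} {R : W → W → Prop} (h : Tun R) : LocFin R := by
  intro S hS
  obtain ⟨n, f, -, hf⟩ := hS.fin_param
  obtain ⟨δ, _, d, h1, h2⟩ := h (Fin n → Prop) (fun x i => x ∈ f i)
  have key : ∀ X, Gen R S X → ∀ x y, d x = d y → x ∈ X → y ∈ X := by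
    intro X hX
    induction hX with
    | base hX =>
      rw [← hf] at hX
      obtain ⟨i, rfl⟩ := hX
      intro x y e hx
      have : (x ∈ f i) = (y ∈ f i) := congrFun (h1 x y e) i
      exact this ▸ hx
    | empty => exact fun x y _ h => h
    | compl _ ih => exact fun x y e hx hy => hx (ih y x e.symm hy)
    | union _ _ ih1 ih2 => exact fun x y e hx => hx.imp (ih1 x y e) (ih2 x y e)
    | dia _ ih =>
      rintro x y e ⟨w, hw, r⟩
      obtain ⟨w', e', r'⟩ := h2 x y w e r
      exact ⟨w', ih w w' e'.symm hw, r'⟩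
  refine (Set.finite_range fun T : Set δ => d ⁻¹' T).subset fun X hX => ⟨d '' X, ?_⟩
  ext x
  exact ⟨fun ⟨y, hy, e⟩ => key X hX y x e hy, fun hx => ⟨x, hx, rfl⟩⟩

theorem result (k : ℕ) (α : Fin k → Ordinal.{u}) :
    LocFin (fun x y : (i : Fin k) → Set.Iio (α i) => ∀ i, x i ≤ y i) ∧
    LocFin (fun x y : (i : Fin k) → Set.Iio (α i) => ∀ i, x i < y i) :=
  ⟨locFin_of (tun_le α), locFin_of (tun_lt α)⟩

end Pool.Agent.Results.MP_d97c10_lc.LocallyFinite
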